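import Mathlib
import Pool.Agent.H72.CG.Real
import Pool.Graph.R_seed8.H661R3.OP.PAP

/-!
# Almost prime Cunningham chains of the second kind in all short intervals: arbitrary labels of primes

Give EVERY prime a label in a finite abelian group `G`, in an arbitrary way, and let the label of a
positive integer be the sum of the labels of its prime factors (with multiplicity). Let `N = |G|`, or
let `G` have exponent `2` and `|G| ≤ 2 ^ (N - 1)`, and let `θ > 1 - 1 / N`. We show: in EVERY interval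
`(x, x + x ^ θ]` every element of `G` is the label of the `j`-th member of at least
`x ^ (1 - N (1 - θ) - ε)` chains `n, 2 n - 1, 4 n - 3, ...` of length `k` whose members are all products
of at most `R` primes, all larger than `x ^ δ`, and `n` may be taken in a residue class. The only
condition is the obvious one that the labels of the primes `p ≡ 1` modulo a certain `q`,
`x ^ δ < p ≤ x ^ (2 δ)`, generate `G`. For `G = ZMod M` and the label `1` of all primes: the number of
prime factors of the `j`-th member lies in ANY given class modulo `M`, for instance in the class of `1`,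
as for the primes which one looks for; for `M = 2` this is the parity of the number of prime factors.

Method (`Pool/Agent/H72/CG`): for rough numbers `V` which are close to one another, a sieve gives many `w`
such that ALL the `V w` are `j`-th members of such chains of the interval, and the labels of the `V w`
are all the elements of `G` if the labels of the `V` are. Such families of `V` are products of pairs
`{U, U'}` of neighbouring rough numbers: for each proper subgroup `H` of `G` some pair has labels which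
differ modulo `H`, since otherwise the label modulo `H` would be the same for all the rough numbers from
`U` to `p U`; and if `T ≠ G` is the set of the labels of a family, `H` its stabiliser and the labels
`s, s'` of a pair differ modulo `H`, then `T + {s, s'}` is larger than `T` (and twice as large as `T` if
`G` has exponent `2`).

From the library: the sieve for linear forms and the idea of the chain of neighbouring rough numbers
(`Pool.Agent.W5h75.SP`, for the group with two elements), and a prime `≡ 1` modulo `q` in `(Y, Y ^ 2]`.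
-/

set_option autoImplicit false

open Finset

namespace Pool.Agent.Results.MP_9f2731_nt.LabelledPrimeFactors

open Pool.Agent.H72.CG

/-- `c i n = 2 ^ i (n - 1) + 1`, the chain `n, 2 n - 1, 4 n - 3, ...` of the second kind. -/
def c (i n : ℕ) : ℕ := 2 ^ i * (n - 1) + 1

/-- The `n` in `(x, x + x ^ θ]`, `n ≡ b` modulo `m`, such that the members `c 0 n, ..., c (k-1) n` of the
chain are products of at most `R` primes, all larger than `x ^ δ`. -/
def AlmostPrimeChains (k m b : ℕ) (θ δ : ℝ) (R : ℕ) (x : ℝ) : Set ℕ :=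
  {n : ℕ | x < n ∧ (n : ℝ) ≤ x + x ^ θ ∧ n ≡ b [MOD m] ∧
    ∀ i < k, (c i n).primeFactorsList.length ≤ R ∧ ∀ p : ℕ, p.Prime → p ∣ c i n → x ^ δ < p}

theorem c_cast (i n : ℕ) (hn : 1 ≤ n) : ((c i n : ℕ) : ℤ) = 2 ^ i * (n : ℤ) + (1 - 2 ^ i) := by
  unfold c
  push_cast [Nat.cast_sub hn]
  ring

theorem pow_length_le (y : ℝ) (hy : 0 ≤ y) : ∀ l : List ℕ, (∀ p ∈ l, y ≤ (p : ℝ)) →
    y ^ l.length ≤ ((l.prod : ℕ) : ℝ) := by
  intro l
  induction l with
  | nil => intro _; simp
  | cons p l ih =>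
    intro h
    rw [List.length_cons, List.prod_cons, pow_succ, mul_comm, Nat.cast_mul]
    exact mul_le_mul (h p (by simp)) (ih fun q hq => h q (by simp [hq])) (by positivity)
      (by positivity)

/-- the sum of the labels of the prime factors -/
def lab {G : Type} [AddCommGroup G] (Φ : ℕ → G) (z : ℤ) : G := (z.natAbs.primeFactorsList.map Φ).sum

theorem addG_lab {G : Type} [AddCommGroup G] (Φ : ℕ → G) : AddG (lab Φ) := by
  intro x y hx hy
  unfold lab
  rw [Int.natAbs_mul, ← List.sum_append, ← List.map_append]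
  exact ((Nat.perm_primeFactorsList_mul (Int.natAbs_ne_zero.2 hx)
    (Int.natAbs_ne_zero.2 hy)).map Φ).sum_eq

theorem lab_prime {G : Type} [AddCommGroup G] (Φ : ℕ → G) (p : ℕ) (hp : p.Prime) :
    lab Φ (p : ℤ) = Φ p := by
  unfold lab
  rw [Int.natAbs_natCast, Nat.primeFactorsList_prime hp]
  simp

/-- **Almost prime chains of the second kind in all short intervals, with arbitrary labels.**
Let `j < k`, let `b ≥ 1` and `m ≥ 1` be such that the members `c i b`, `i < k`, are coprime to `m`, and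
let `N ≥ 1`, `1 - 1 / N < θ ≤ 1` and `ε > 0`. There are `R`, `q` and `δ > 0` such that for all large `x`
there are primes `p ≡ 1` modulo `q` in `(x ^ δ, x ^ (2 δ)]`, and the following holds.

Let `G` be a finite abelian group with at most `N` elements, or of exponent `2` with at most
`2 ^ (N - 1)` elements, and let `Φ p ∈ G` be arbitrary labels of the primes such that the labels of the
primes `p ≡ 1` modulo `q` in `(x ^ δ, x ^ (2 δ)]` generate `G`. Then for EVERY `g` in `G` at least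
`x ^ (1 - N (1 - θ) - ε)` integers `n` in `(x, x + x ^ θ]`, `n ≡ b` modulo `m`, are such that all the
members `c 0 n, ..., c (k-1) n` are products of at most `R` primes, all larger than `x ^ δ`, and the sum
of the labels of the prime factors of `c j n` (with multiplicity) is `g`.

For example (`G = ZMod M`, `M ≤ N`, `Φ = 1`) the number of prime factors of `c j n` lies in any given
class modulo `M`, see `result_Omega`. -/
theorem result (k m b : ℕ) (hm : 0 < m) (hb0 : 0 < b) (hb : ∀ i < k, Nat.Coprime (c i b) m)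
    (j : ℕ) (hj : j < k) (N : ℕ) (hN : 1 ≤ N) (θ ε : ℝ) (hθ : 1 - 1 / (N : ℝ) < θ) (hθ1 : θ ≤ 1)
    (hε : 0 < ε) :
    ∃ (R q : ℕ) (δ : ℝ), 0 < q ∧ 0 < δ ∧ ∃ x₀ : ℝ, ∀ x : ℝ, x₀ ≤ x →
      (∃ p : ℕ, p.Prime ∧ x ^ δ < p ∧ (p : ℝ) ≤ x ^ (2 * δ) ∧ p ≡ 1 [MOD q]) ∧
      ∀ (G : Type) [AddCommGroup G] [Fintype G],
        (Fintype.card G ≤ N ∨ (∀ z : G, z + z = 0) ∧ Fintype.card G ≤ 2 ^ (N - 1)) →
        ∀ Φ : ℕ → G, AddSubgroup.closure {g : G | ∃ p : ℕ, p.Prime ∧ x ^ δ < p ∧
          (p : ℝ) ≤ x ^ (2 * δ) ∧ p ≡ 1 [MOD q] ∧ Φ p = g} = ⊤ →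
        ∀ g : G, x ^ (1 - N * (1 - θ) - ε) ≤
          ({n : ℕ | n ∈ AlmostPrimeChains k m b θ δ R x ∧
            ((c j n).primeFactorsList.map Φ).sum = g}.ncard : ℝ) := by
  classical
  obtain ⟨q, δ, hq, hδ, x₁, hx₁, hmain⟩ := real_version {i // i ∈ range k}
    (fun i => 2 ^ (i : ℕ)) (fun i => 1 - 2 ^ (i : ℕ)) (fun i => by positivity)
    ⟨j, mem_range.2 hj⟩ m hm b (by
      intro p hp
      by_cases hpm : p ∣ m
      · refine ⟨0, fun i hd => ?_⟩
        have h1 : (p : ℤ) ∣ ((c i b : ℕ) : ℤ) := by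
          rw [c_cast _ _ hb0]
          simpa using hd
        have h2 : p ∣ c i b := Int.natCast_dvd_natCast.1 h1
        exact Nat.not_coprime_of_dvd_of_dvd hp.one_lt h2 hpm (hb i (mem_range.1 i.2))
      · have hc2 : IsCoprime (m : ℤ) (p : ℤ) := by
          rw [Nat.isCoprime_iff_coprime]
          exact ((Nat.Prime.coprime_iff_not_dvd hp).2 hpm).symm
        obtain ⟨u', v', huv'⟩ := hc2
        refine ⟨u' * (1 - b), fun i hd => ?_⟩
        have h1 : (1 : ℤ) = (2 ^ (i : ℕ) * (b + m * (u' * (1 - b))) + (1 - 2 ^ (i : ℕ))) +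
            p * (2 ^ (i : ℕ) * ((1 - b) * v')) := by
          linear_combination (-(2 ^ (i : ℕ) * (1 - (b : ℤ)))) * huv'
        have h2 : (p : ℤ) ∣ 1 := by
          rw [h1]
          exact dvd_add hd (dvd_mul_right _ _)
        have h3 : p ∣ 1 := by exact_mod_cast h2
        exact hp.one_lt.ne' (Nat.dvd_one.1 h3)) N hN θ ε hθ hθ1 hε
  obtain ⟨Y₀, hY₀⟩ := Pool.Agent.H661R3.OP.t_PAP q hq
  have l1 : ∀ᶠ x : ℝ in Filter.atTop, ((Y₀ : ℝ) + 2) ≤ x ^ δ :=
    (tendsto_rpow_atTop hδ).eventually_ge_atTop _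
  obtain ⟨x₂, hx₂⟩ := Filter.eventually_atTop.mp l1
  refine ⟨⌈2 / δ⌉₊, q, δ, hq, hδ, max (max x₁ x₂) (2 ^ (k + 1)), ?_⟩
  intro x hx
  have hxx₁ : x₁ ≤ x := ((le_max_left _ _).trans (le_max_left _ _)).trans hx
  have hxx₂ : x₂ ≤ x := ((le_max_right _ _).trans (le_max_left _ _)).trans hx
  have hxk : (2 : ℝ) ^ (k + 1) ≤ x := (le_max_right _ _).trans hx
  have hx1 : 1 ≤ x := hx₁.trans hxx₁
  have hx0 : 0 < x := by linarith
  have hx2 : 1 < x := by
    have : (2 : ℝ) ≤ 2 ^ (k + 1) := by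
      calc (2 : ℝ) = 2 ^ 1 := (pow_one _).symm
        _ ≤ 2 ^ (k + 1) := pow_le_pow_right₀ (by norm_num) (by omega)
    linarith
  have hxθ : x ^ θ ≤ x := by
    calc x ^ θ ≤ x ^ (1 : ℝ) := Real.rpow_le_rpow_of_exponent_le hx1 hθ1
      _ = x := Real.rpow_one x
  -- the general statement
  have gen : ∀ (G : Type) [AddCommGroup G] [Fintype G],
      (Fintype.card G ≤ N ∨ (∀ z : G, z + z = 0) ∧ Fintype.card G ≤ 2 ^ (N - 1)) →
      ∀ Φ : ℕ → G, AddSubgroup.closure {g : G | ∃ p : ℕ, p.Prime ∧ x ^ δ < p ∧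
        (p : ℝ) ≤ x ^ (2 * δ) ∧ p ≡ 1 [MOD q] ∧ Φ p = g} = ⊤ →
      ∀ g : G, x ^ (1 - N * (1 - θ) - ε) ≤
        ({n : ℕ | n ∈ AlmostPrimeChains k m b θ δ ⌈2 / δ⌉₊ x ∧
          ((c j n).primeFactorsList.map Φ).sum = g}.ncard : ℝ) := by
    intro G _ _ hG Φ hΦ g
    have key := hmain x hxx₁ G hG (lab Φ) (addG_lab Φ) (by
      intro H hH
      by_contra hcon
      apply hH
      rw [← hΦ]
      symm
      apply le_antisymm
      · rw [AddSubgroup.closure_le]
        rintro g' ⟨p, hp, h1, h2, h3, rfl⟩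
        by_contra h4
        refine hcon ⟨p, hp, h1, h2, ?_, ?_⟩
        · have h5 := (Nat.modEq_iff_dvd.1 h3.symm)
          simpa using h5
        · rw [lab_prime Φ p hp]; exact h4
      · rw [hΦ]; exact le_top) g
    refine key.trans (Nat.cast_le.2 ?_)
    refine Set.ncard_le_ncard_of_injOn Int.toNat ?_ ?_ ?_
    · rintro n ⟨h1, h2, h3, h4, h5⟩
      have hn0 : (0 : ℝ) < n := by linarith
      have hn1 : 0 < n := by exact_mod_cast hn0
      obtain ⟨n', rfl⟩ := Int.eq_ofNat_of_zero_le hn1.le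
      simp only [Int.toNat_natCast] at *
      have hn1' : 1 ≤ n' := by omega
      have hcx : ∀ i < k, (c i n' : ℝ) ≤ x ^ (2 : ℝ) := by
        intro i hi
        have e1 : ((n' - 1 : ℕ) : ℝ) = (n' : ℝ) - 1 := by
          rw [Nat.cast_sub hn1']; simp
        have e2 : (c i n' : ℝ) = 2 ^ i * ((n' : ℝ) - 1) + 1 := by
          unfold c
          push_cast [e1]
          ring
        have e3 : (1 : ℝ) ≤ 2 ^ i := one_le_pow₀ (by norm_num)
        have e4 : (2 : ℝ) ^ i ≤ 2 ^ k := pow_le_pow_right₀ (by norm_num) hi.le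
        have e5 : (n' : ℝ) ≤ 2 * x := by
          have : ((n' : ℤ) : ℝ) = (n' : ℝ) := by push_cast; rfl
          rw [this] at h2
          linarith
        have e6 : (c i n' : ℝ) ≤ 2 ^ i * n' := by
          rw [e2]; nlinarith
        calc (c i n' : ℝ) ≤ 2 ^ i * n' := e6
          _ ≤ 2 ^ k * (2 * x) := mul_le_mul e4 e5 (by positivity) (by positivity)
          _ = 2 ^ (k + 1) * x := by ring
          _ ≤ x * x := mul_le_mul_of_nonneg_right hxk hx0.le
          _ = x ^ (2 : ℝ) := by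
            rw [show (2 : ℝ) = ((2 : ℕ) : ℝ) by norm_num, Real.rpow_natCast]; ring
      have hpr : ∀ i < k, ∀ p : ℕ, p.Prime → p ∣ c i n' → x ^ δ < p := by
        intro i hi p hp hd
        apply h4 ⟨i, mem_range.2 hi⟩ p hp
        have : (p : ℤ) ∣ ((c i n' : ℕ) : ℤ) := Int.natCast_dvd_natCast.2 hd
        rwa [c_cast _ _ hn1'] at this
      refine ⟨⟨by exact_mod_cast h1, by exact_mod_cast h2, ?_, fun i hi => ⟨?_, hpr i hi⟩⟩, ?_⟩
      · rw [Nat.modEq_iff_dvd]
        have : (b : ℤ) - n' = -((n' : ℤ) - b) := by ring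
        rw [this]
        exact (dvd_neg).2 h3
      · have g1 := pow_length_le (x ^ δ) (by positivity) (c i n').primeFactorsList (by
          intro p hp
          exact (hpr i hi p (Nat.prime_of_mem_primeFactorsList hp)
            (Nat.dvd_of_mem_primeFactorsList hp)).le)
        have hc0 : c i n' ≠ 0 := by unfold c; omega
        rw [Nat.prod_primeFactorsList hc0] at g1
        have g2 : x ^ (δ * ((c i n').primeFactorsList.length : ℝ)) ≤ x ^ (2 : ℝ) := by
          rw [Real.rpow_mul hx0.le, Real.rpow_natCast]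
          exact g1.trans (hcx i hi)
        have g3 := (Real.rpow_le_rpow_left_iff hx2).1 g2
        have g4 : ((c i n').primeFactorsList.length : ℝ) ≤ 2 / δ := by
          rw [le_div_iff₀ hδ]; linarith
        exact_mod_cast g4.trans (Nat.le_ceil _)
      · have e : (2 : ℤ) ^ j * (n' : ℤ) + (1 - 2 ^ j) = ((c j n' : ℕ) : ℤ) := (c_cast j n' hn1').symm
        have h6 : lab Φ ((2 : ℤ) ^ j * (n' : ℤ) + (1 - 2 ^ j)) = g := h5
        rw [e] at h6
        exact h6
    · rintro n ⟨h1, -⟩ n' ⟨h1', -⟩ h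
      have hn0 : (0 : ℝ) < n := by linarith
      have hn1 : 0 < n := by exact_mod_cast hn0
      have hn0' : (0 : ℝ) < n' := by linarith
      have hn1' : 0 < n' := by exact_mod_cast hn0'
      have : (n.toNat : ℤ) = n'.toNat := by exact_mod_cast h
      rwa [Int.toNat_of_nonneg hn1.le, Int.toNat_of_nonneg hn1'.le] at this
    · apply (Set.finite_Iic ⌊x + x ^ θ⌋₊).subset
      rintro n ⟨⟨h1, h2, -⟩, -⟩
      exact Nat.le_floor h2
  refine ⟨?_, gen⟩
  obtain ⟨p, hp, hp1, hp2, hp3⟩ := hY₀ ⌊x ^ δ⌋₊ (by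
    apply Nat.le_floor
    have := hx₂ x hxx₂
    linarith)
  refine ⟨p, hp, ?_, ?_, ?_⟩
  · have : ⌊x ^ δ⌋₊ + 1 ≤ p := hp1
    calc x ^ δ < (⌊x ^ δ⌋₊ : ℝ) + 1 := Nat.lt_floor_add_one _
      _ ≤ p := by exact_mod_cast this
  · calc (p : ℝ) ≤ ((⌊x ^ δ⌋₊ ^ 2 : ℕ) : ℝ) := by exact_mod_cast hp2
      _ = (⌊x ^ δ⌋₊ : ℝ) ^ 2 := by push_cast; rfl
      _ ≤ (x ^ δ) ^ 2 := pow_le_pow_left₀ (by positivity) (Nat.floor_le (by positivity)) 2
      _ = x ^ (2 * δ) := by
        rw [← Real.rpow_natCast (x ^ δ), ← Real.rpow_mul hx0.le]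
        congr 1
        push_cast
        ring
  · apply Nat.ModEq.symm
    rw [Nat.modEq_iff_dvd]
    simpa using hp3

/-- **The number of prime factors of a member of a chain, in any class modulo `M`.** The special case of
`result` with `G = ZMod M` and `Φ = 1`. -/
theorem result_Omega (k m b : ℕ) (hm : 0 < m) (hb0 : 0 < b) (hb : ∀ i < k, Nat.Coprime (c i b) m)
    (j : ℕ) (hj : j < k) (M : ℕ) (hM : 1 ≤ M) (θ ε : ℝ) (hθ : 1 - 1 / (M : ℝ) < θ) (hθ1 : θ ≤ 1)
    (hε : 0 < ε) :
    ∃ (R : ℕ) (δ : ℝ), 0 < δ ∧ ∃ x₀ : ℝ, ∀ x : ℝ, x₀ ≤ x → ∀ s : ℕ,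
      x ^ (1 - M * (1 - θ) - ε) ≤ ({n : ℕ | n ∈ AlmostPrimeChains k m b θ δ R x ∧
          (c j n).primeFactorsList.length ≡ s [MOD M]}.ncard : ℝ) := by
  obtain ⟨R, q, δ, -, hδ, x₀, h⟩ := result k m b hm hb0 hb j hj M hM θ ε hθ hθ1 hε
  refine ⟨R, δ, hδ, x₀, fun x hx s => ?_⟩
  obtain ⟨⟨p, hp, hp1, hp2, hp3⟩, h2⟩ := h x hx
  have : NeZero M := ⟨by omega⟩
  have h1 := h2 (ZMod M) (Or.inl (by rw [ZMod.card])) (fun _ => 1) (by
    rw [eq_top_iff]
    intro z _
    have hz : z = (z.val : ℕ) • (1 : ZMod M) := by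
      rw [nsmul_eq_mul, mul_one, ZMod.natCast_zmod_val]
    have hmem : (1 : ZMod M) ∈ {g : ZMod M | ∃ p : ℕ, p.Prime ∧ x ^ δ < p ∧
        (p : ℝ) ≤ x ^ (2 * δ) ∧ p ≡ 1 [MOD q] ∧ (fun _ : ℕ => (1 : ZMod M)) p = g} :=
      ⟨p, hp, hp1, hp2, hp3, rfl⟩
    rw [hz]
    exact AddSubgroup.nsmul_mem _ (AddSubgroup.subset_closure hmem) _)
    (s : ZMod M)
  refine h1.trans (le_of_eq ?_)
  congr 2
  ext n
  simp only [Set.mem_ofPred_eq]
  refine and_congr_right fun _ => ?_
  rw [List.map_const', List.sum_replicate, nsmul_eq_mul, mul_one]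
  exact ZMod.natCast_eq_natCast_iff _ _ _

end Pool.Agent.Results.MP_9f2731_nt.LabelledPrimeFactors
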