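import Pool.Agent.H32.LP.Gen

/-!
# Almost prime Cunningham chains of the second kind all of whose members have a large prime factor

The members of the chain of the second kind with the first member `n` are `c i n = 2 ^ i (n - 1) + 1`, `i = 0, 1, …`.
Let `Rough k r X` be the set of the `n` in `(X, 2 X]` for which none of the first `k` members has a prime factor up to
`X ^ (1 / r)`. There are at least `c X / (log X) ^ k` of them, and their first `k` members have at most `r` prime factors.
We show that a positive proportion of these `n` is such that ALL the `k` members have a prime factor larger than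
`X ^ θ`, for every `θ < 1 / J` if `J! > k`; the proportion is at least `1 - k / J!` (up to `ε`). More generally
the exponents `θ i` may depend on the member.

Proof: the moments of order `j` of the logarithms of the prime factors up to `X ^ θ`, `j θ < 1`, over the sifted set, from
the fundamental lemma of the sieve in progressions modulo products of `j` primes.
-/

set_option autoImplicit false

namespace Pool.Agent.Results.MP_9f2731_nt.LargePrimeFactors

open Filter Finset Polynomial
open Pool.Agent.H32.LP Pool.Agent.W123.RU.Poly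

/-- The member with index `i` of the chain of the second kind which starts at `n`. -/
def c (i n : ℕ) : ℕ := 2 ^ i * (n - 1) + 1

/-- The `n` in `(X, 2 X]` such that no prime `p ≤ X ^ (1 / r)` divides one of the first `k` members of the chain. -/
def Rough (k r X : ℕ) : Set ℕ :=
  {n | X < n ∧ n ≤ 2 * X ∧ ∀ i < k, ∀ p : ℕ, p.Prime → (p : ℝ) ≤ (X : ℝ) ^ (1 / (r : ℝ)) → ¬ p ∣ c i n}

/-- `m` has a prime factor larger than `y`. -/
def HasLarge (y : ℝ) (m : ℕ) : Prop := ∃ p : ℕ, p.Prime ∧ p ∣ m ∧ y < (p : ℝ)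

/-- The product of the `θ / (1 - t θ)` for `0 ≤ t < j`. -/
noncomputable def bound (θ : ℝ) (j : ℕ) : ℝ := ∏ t ∈ range j, θ / (1 - t * θ)

/-- For all large `r` and `X` there are at least `c X / (log X) ^ k` integers in `Rough k r X`, their first `k` members
have at most `r` prime factors each, and for a proportion of at least `κ` of them the member with index `i` has a
prime factor larger than `X ^ θ i`, simultaneously for all `i < k`. -/
def Large (k : ℕ) (θ : ℕ → ℝ) (κ : ℝ) : Prop :=
  ∃ r₀ : ℕ, 1 ≤ r₀ ∧ ∀ r : ℕ, r₀ ≤ r → ∃ b : ℝ, 0 < b ∧ ∀ᶠ X : ℕ in atTop,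
    b * X / Real.log X ^ k ≤ ((Rough k r X).ncard : ℝ) ∧
    (∀ n ∈ Rough k r X, ∀ i < k, (c i n).primeFactorsList.length ≤ r) ∧
    κ * ((Rough k r X).ncard : ℝ) ≤
      ({n | n ∈ Rough k r X ∧ ∀ i < k, HasLarge ((X : ℝ) ^ θ i) (c i n)}.ncard : ℝ)

/-- the polynomial of the member with index `i` -/
noncomputable def pol (i : ℕ) : ℤ[X] := C ((2 : ℤ) ^ i) * X + C (1 - (2 : ℤ) ^ i)

lemma two_ne (i : ℕ) : (2 : ℤ) ^ i ≠ 0 := by positivity

lemma pol_eval (i n : ℕ) (hn : 1 ≤ n) : (pol i).eval (n : ℤ) = (c i n : ℤ) := by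
  unfold pol c
  simp only [eval_add, eval_mul, eval_C, eval_X]
  push_cast [Nat.cast_sub hn]
  ring

lemma pol_deg (i : ℕ) : (pol i).natDegree = 1 := natDegree_linear (two_ne i)

lemma sys (k : ℕ) : Sys (fun i : Fin k => pol i) where
  irr i := by
    refine irreducible_C_mul_X_add_C (two_ne i) (IsCoprime.isRelPrime ⟨1, 1, by ring⟩)
  deg i := by rw [pol_deg]; norm_num
  lead i := by
    unfold pol
    rw [leadingCoeff_linear (two_ne i)]
    positivity
  inj := by
    intro i i' h
    have h1 := congrArg leadingCoeff h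
    simp only [pol] at h1
    rw [leadingCoeff_linear (two_ne i), leadingCoeff_linear (two_ne i')] at h1
    have h2 : (2 : ℕ) ^ (i : ℕ) = 2 ^ (i' : ℕ) := by exact_mod_cast h1
    exact Fin.ext (Nat.pow_right_injective le_rfl h2)
  adm p hp := by
    refine ⟨1, fun i h => ?_⟩
    have h1 := pol_eval i 1 le_rfl
    rw [h1] at h
    have h2 : c (i : ℕ) 1 = 1 := by simp [c]
    rw [h2] at h
    have h3 : p ∣ 1 := by exact_mod_cast h
    exact hp.one_lt.ne' (Nat.dvd_one.1 h3)

lemma rough_eq (k r X : ℕ) : Rough k r X = RoughG (fun i : Fin k => pol i) r X := by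
  ext n
  unfold Rough RoughG
  rw [Set.mem_ofPred_eq, Set.mem_ofPred_eq]
  refine and_congr_right fun hX => and_congr_right fun _ => ?_
  have hn : 1 ≤ n := by omega
  constructor
  · intro h i p hp hpX hd
    rw [pol_eval i n hn, Int.natCast_dvd_natCast] at hd
    exact h i i.2 p hp hpX hd
  · intro h i hi p hp hpX hd
    refine h ⟨i, hi⟩ p hp hpX ?_
    rw [pol_eval _ n hn, Int.natCast_dvd_natCast]
    exact hd

lemma bound_eq (θ : ℝ) (j : ℕ) : beta 1 θ j = bound θ j := by
  unfold beta bound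
  simp

theorem general (k : ℕ) (θ : ℕ → ℝ) (j : ℕ → ℕ) (hθ : ∀ i < k, 0 < θ i ∧ 1 ≤ j i ∧ j i * θ i < 1) (κ : ℝ)
    (hκ : κ < 1 - ∑ i ∈ range k, bound (θ i) (j i)) : Large k θ κ := by
  classical
  obtain ⟨r₀, hr₀, h⟩ := gen (fun i : Fin k => pol i) (sys k) (fun i => θ i) (fun i => j i)
    (fun i => hθ i i.2) κ (by
      refine lt_of_lt_of_le hκ (le_of_eq ?_)
      rw [← Fin.sum_univ_eq_sum_range (fun i => bound (θ i) (j i)) k]
      congr 1
      refine Finset.sum_congr rfl fun i _ => ?_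
      rw [pol_deg, bound_eq])
  refine ⟨r₀, hr₀, fun r hr => ?_⟩
  obtain ⟨b, hb, hX⟩ := h r hr
  refine ⟨b, hb, ?_⟩
  filter_upwards [hX] with X hX
  obtain ⟨h1, h2, h3⟩ := hX
  rw [Fintype.card_fin] at h1
  refine ⟨?_, ?_, ?_⟩
  · rw [rough_eq]
    exact h1
  · intro n hn i hi
    have hn1 : 1 ≤ n := by
      have := hn.1
      omega
    rw [rough_eq] at hn
    have h4 := h2 n hn ⟨i, hi⟩
    simp only at h4
    rwa [pol_eval i n hn1, pol_deg, one_mul, Int.natAbs_natCast] at h4
  · have e : {n | n ∈ Rough k r X ∧ ∀ i < k, HasLarge ((X : ℝ) ^ θ i) (c i n)} =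
        {n | n ∈ RoughG (fun i : Fin k => pol i) r X ∧ ∀ i : Fin k, ∃ p : ℕ, p.Prime ∧
          (p : ℤ) ∣ (pol i).eval (n : ℤ) ∧ (X : ℝ) ^ θ i < (p : ℝ)} := by
      ext n
      rw [Set.mem_ofPred_eq, Set.mem_ofPred_eq, rough_eq]
      refine and_congr_right fun hn => ?_
      have hn1 : 1 ≤ n := by
        have := hn.1
        omega
      constructor
      · intro g i
        obtain ⟨p, hp, hpd, hpX⟩ := g i i.2
        refine ⟨p, hp, ?_, hpX⟩
        rw [pol_eval i n hn1]
        exact_mod_cast hpd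
      · intro g i hi
        obtain ⟨p, hp, hpd, hpX⟩ := g ⟨i, hi⟩
        refine ⟨p, hp, ?_, hpX⟩
        simp only at hpd
        rw [pol_eval i n hn1] at hpd
        exact_mod_cast hpd
    rw [e, rough_eq]
    exact h3

lemma bound_le (n : ℕ) (θ : ℝ) (h0 : 0 < θ) (h1 : θ ≤ 1 / ((n : ℝ) + 1)) :
    bound θ n ≤ 1 / ((n + 1).factorial : ℝ) := by
  rw [← beta_inv, bound_eq]
  unfold bound
  have hn : (0 : ℝ) < (n : ℝ) + 1 := by positivity
  refine prod_le_prod (fun t ht => ?_) (fun t ht => ?_)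
  · have h2 : (t : ℝ) < (n : ℝ) + 1 := by
      have := mem_range.1 ht
      have h3 : (t : ℝ) < n := by exact_mod_cast this
      linarith
    have h3 : (t : ℝ) * θ < 1 := by
      calc (t : ℝ) * θ ≤ t * (1 / ((n : ℝ) + 1)) := mul_le_mul_of_nonneg_left h1 (Nat.cast_nonneg _)
        _ < 1 := by rw [mul_one_div, div_lt_one hn]; exact h2
    exact div_nonneg h0.le (by linarith)
  · have h2 : (t : ℝ) < (n : ℝ) + 1 := by
      have := mem_range.1 ht
      have h3 : (t : ℝ) < n := by exact_mod_cast this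
      linarith
    have h3 : (t : ℝ) * (1 / ((n : ℝ) + 1)) < 1 := by
      rw [mul_one_div, div_lt_one hn]; exact h2
    have h4 : (t : ℝ) * θ ≤ t * (1 / ((n : ℝ) + 1)) := mul_le_mul_of_nonneg_left h1 (Nat.cast_nonneg _)
    exact div_le_div₀ (by positivity) h1 (by linarith) (by linarith)

/-- **Almost prime Cunningham chains of the second kind, all members with a large prime factor.**

(1) Let `0 < θ i`, `1 ≤ j i`, `j i * θ i < 1` for `i < k` and let `κ` be smaller than `1` minus the sum of the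
`bound (θ i) (j i)`, `i < k`. Then `Large k θ κ`.

(2) In particular, if `k < (J + 1)!`, `J ≥ 1`, `0 < θ < 1 / (J + 1)` and `κ < 1 - k / (J + 1)!`, then for a proportion of at
least `κ` of the elements of `Rough k r X` all the first `k` members have a prime factor larger than `X ^ θ`. -/
theorem result :
    (∀ (k : ℕ) (θ : ℕ → ℝ) (j : ℕ → ℕ), (∀ i < k, 0 < θ i ∧ 1 ≤ j i ∧ j i * θ i < 1) →
      ∀ κ : ℝ, κ < 1 - ∑ i ∈ range k, bound (θ i) (j i) → Large k θ κ) ∧
    (∀ k J : ℕ, 1 ≤ J → k < (J + 1).factorial → ∀ θ : ℝ, 0 < θ → θ < 1 / ((J : ℝ) + 1) →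
      ∀ κ : ℝ, κ < 1 - k / ((J + 1).factorial : ℝ) → Large k (fun _ => θ) κ) := by
  refine ⟨general, fun k J hJ _ θ h0 h1 κ hκ => ?_⟩
  refine general k (fun _ => θ) (fun _ => J) (fun i _ => ⟨h0, hJ, ?_⟩) κ (lt_of_lt_of_le hκ ?_)
  · have hJ0 : (0 : ℝ) ≤ J := Nat.cast_nonneg _
    have hJ1 : (0 : ℝ) < (J : ℝ) + 1 := by positivity
    calc (J : ℝ) * θ ≤ J * (1 / ((J : ℝ) + 1)) := mul_le_mul_of_nonneg_left h1.le hJ0
      _ < 1 := by rw [mul_one_div, div_lt_one hJ1]; linarith
  · rw [sum_const, card_range, nsmul_eq_mul]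
    have h2 := bound_le J θ h0 h1.le
    have h3 : (k : ℝ) * bound θ J ≤ k * (1 / ((J + 1).factorial : ℝ)) :=
      mul_le_mul_of_nonneg_left h2 (Nat.cast_nonneg _)
    rw [mul_one_div] at h3
    linarith

end Pool.Agent.Results.MP_9f2731_nt.LargePrimeFactors
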